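import Pool.Agent.W2helper22.MG.Stm
import Pool.Agent.H36.Sim

/-!
# Project MG (helper22), piece POLY: the new generator is computable in polynomial time
-/

set_option autoImplicit false

namespace Pool.Agent.W2helper15.MG

open Pool.Agent.H38.NP Pool.Agent.W2helper86.LG Pool.Agent.W2helper22.MG Pool.Agent.H36.Sim

/-- the value of a list of bits, continued from `v` -/
def vf (v : ℕ) (l : List Bool) : ℕ := l.foldl (fun v b => 2 * v + b.toNat) v

theorem vf_cons (v : ℕ) (b : Bool) (l : List Bool) : vf v (b :: l) = vf (2 * v + b.toNat) l := rfl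

theorem vf_eq (l : List Bool) : ∀ v : ℕ, vf v l = v * 2 ^ l.length + vf 0 l := by
  induction l with
  | nil => intro v; simp [vf]
  | cons b l ih =>
    intro v
    rw [vf_cons, vf_cons, ih, ih (2 * 0 + b.toNat), List.length_cons]
    ring

theorem vf_lt (l : List Bool) : vf 0 l < 2 ^ l.length := by
  induction l with
  | nil => simp [vf]
  | cons b l ih =>
    rw [vf_cons, vf_eq, List.length_cons, pow_succ]
    have hb : b.toNat ≤ 1 := Bool.toNat_le b
    nlinarith [Nat.mul_le_mul_right (2 ^ l.length) hb]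

theorem vf_inj : ∀ l l' : List Bool, l.length = l'.length → vf 0 l = vf 0 l' → l = l' := by
  intro l
  induction l with
  | nil =>
    intro l' h _
    exact (List.length_eq_zero_iff.1 h.symm).symm
  | cons b l ih =>
    intro l' h h2
    cases l' with
    | nil => simp at h
    | cons b' l' =>
      have hl : l.length = l'.length := by simpa using h
      rw [vf_cons, vf_cons, vf_eq, vf_eq l', ← hl] at h2
      have h3 := vf_lt l
      have h4 := vf_lt l'
      rw [← hl] at h4
      have h5 : b = b' := by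
        cases b <;> cases b' <;> simp at h2 ⊢ <;> omega
      rw [h5] at h2 ⊢
      rw [ih l' hl (by omega)]

variable {α : Type} [Enc α]

theorem pt_vf {l : α → List Bool} (hl : PT l) (hB : PB fun a => 2 ^ (l a).length) :
    PT fun a => vf 0 (l a) := by
  unfold vf
  refine PT.foldl (f := fun (_ : α) (v : ℕ) (b : Bool) => 2 * v + b.toNat) (by fun_prop) hl
    (PT.const 0) (B := fun a => 2 ^ (l a).length) hB fun a i => ?_
  rw [sz_nat]
  have h := vf_lt ((l a).take i)
  unfold vf at h
  refine h.le.trans (Nat.pow_le_pow_right (by norm_num) ?_)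
  rw [List.length_take]
  exact min_le_right _ _

theorem pt_two_pow {n : α → ℕ} (hn : PT n) (hB : PB fun a => 2 ^ n a) : PT fun a => 2 ^ n a := by
  have h : PT fun a => (fun x : ℕ => 2 * x)^[n a] 1 := by
    refine PT.iterate (step := fun (_ : α) (x : ℕ) => 2 * x) (by fun_prop) hn (PT.const 1)
      (B := fun a => 2 ^ n a) hB fun a i hi => ?_
    rw [sz_nat]
    have h2 : ∀ k : ℕ, (fun x : ℕ => 2 * x)^[k] 1 = 2 ^ k := by
      intro k
      induction k with
      | zero => rfl
      | succ k ih => rw [Function.iterate_succ_apply', ih, pow_succ]; ring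
    rw [h2]
    exact Nat.pow_le_pow_right (by norm_num) hi
  refine h.of_eq fun a => ?_
  have h2 : ∀ k : ℕ, (fun x : ℕ => 2 * x)^[k] 1 = 2 ^ k := by
    intro k
    induction k with
    | zero => rfl
    | succ k ih => rw [Function.iterate_succ_apply', ih, pow_succ]; ring
  exact h2 _

theorem pt_lam {f : α → ℕ} (hf : PT f) : PT fun a => lam (f a) := by
  unfold lam
  exact PT.add (pt_log hf) (PT.const 1)

theorem pb_lam (A : ℕ) {f : α → ℕ} (hf : PT f) : PB fun a => 2 ^ (A * lam (f a)) := by
  refine (PB.eval (Polynomial.X ^ A) ((PB.const 2).mul (hf.nat_pb.add (PB.const 1)))).mono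
    fun a => ?_
  rw [Polynomial.eval_pow, Polynomial.eval_X, mul_comm, pow_mul]
  refine Nat.pow_le_pow_left ?_ A
  unfold lam
  rw [pow_succ]
  have := two_pow_log_le (f a)
  omega

theorem pt_big (A : ℕ) {f : α → ℕ} (hf : PT f) : PT fun a => 2 ^ (A * lam (f a)) :=
  pt_two_pow (PT.mul (PT.const A) (pt_lam hf)) (pb_lam A hf)

/-- the output of the given generator -/
def LL (g : List Bool → List Bool) (a A : ℕ) (p : ℕ × List Bool) : List Bool :=
  g (pair (List.replicate (2 ^ (A * lam p.1)) true) (p.2.take (p.2.length - a * lam p.1)))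

/-- the number of the block -/
def EE (a : ℕ) (p : ℕ × List Bool) : ℕ := vf 0 (p.2.drop (p.2.length - a * lam p.1))

/-- the new generator -/
def gen' (g : List Bool → List Bool) (a A : ℕ) (p : ℕ × List Bool) : List Bool :=
  (List.range p.1).map fun j => (LL g a A p).getD (EE a p * p.1 + j) false

theorem pt_LL {g : List Bool → List Bool} (hg : PolyTime g) (a A : ℕ) : PT (LL g a A) := by
  have h1 : PT fun p : ℕ × List Bool => 2 ^ (A * lam p.1) := pt_big A (PT.fst PT.id')
  have h2 : PT fun p : ℕ × List Bool => p.2.take (p.2.length - a * lam p.1) :=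
    PT.take (PT.sub (PT.length (PT.snd PT.id'))
      (PT.mul (PT.const a) (pt_lam (PT.fst PT.id')))) (PT.snd PT.id')
  have h3 : PT fun p : ℕ × List Bool =>
      raw (2 ^ (A * lam p.1), Bits.mk (p.2.take (p.2.length - a * lam p.1))) :=
    PT.raw (PT.mk h1 (PT.bmk h2))
  have h4 := PT.bval ((pt_of_polyTime hg).comp h3)
  refine h4.of_eq fun p => ?_
  show g (raw (2 ^ (A * lam p.1), Bits.mk (p.2.take (p.2.length - a * lam p.1)))).val = _
  rw [raw_val, enc_prod, enc_nat, enc_bits]
  rfl

theorem pt_EE (a : ℕ) : PT (EE a) := by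
  unfold EE
  refine pt_vf ?_ ?_
  · exact PT.drop (PT.sub (PT.length (PT.snd PT.id'))
      (PT.mul (PT.const a) (pt_lam (PT.fst PT.id')))) (PT.snd PT.id')
  · refine (pb_lam a (f := fun p : ℕ × List Bool => p.1) (PT.fst PT.id')).mono fun p => ?_
    refine Nat.pow_le_pow_right (by norm_num) ?_
    rw [List.length_drop]
    omega

theorem pt_gen' {g : List Bool → List Bool} (hg : PolyTime g) (a A : ℕ) : PT (gen' g a A) := by
  unfold gen'
  refine PT.map (f := fun (p : ℕ × List Bool) (j : ℕ) =>
    (LL g a A p).getD (EE a p * p.1 + j) false) ?_ (PT.range (PT.fst PT.id'))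
  have h1 : PT fun q : (ℕ × List Bool) × ℕ => LL g a A q.1 := (pt_LL hg a A).comp (PT.fst PT.id')
  have h2 : PT fun q : (ℕ × List Bool) × ℕ => EE a q.1 := (pt_EE a).comp (PT.fst PT.id')
  exact PT.getD h1 (PT.add (PT.mul h2 (PT.fst (PT.fst PT.id'))) (PT.snd PT.id')) (PT.const false)

/-- the numbering of the blocks -/
noncomputable def ee (k : ℕ) : (Fin k → Bool) ≃ Fin (2 ^ k) :=
  Equiv.ofBijective (fun u => ⟨vf 0 (List.ofFn u), by
    have := vf_lt (List.ofFn u)
    rwa [List.length_ofFn] at this⟩) (by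
    rw [Fintype.bijective_iff_injective_and_card]
    refine ⟨fun u u' h => ?_, by simp⟩
    have h1 : vf 0 (List.ofFn u) = vf 0 (List.ofFn u') := congrArg Fin.val h
    exact List.ofFn_injective (vf_inj _ _ (by simp) h1))

theorem ee_val (k : ℕ) (u : Fin k → Bool) : (ee k u : ℕ) = vf 0 (List.ofFn u) := rfl

/-- **POLY** -/
theorem poly : P_POLY := by
  rintro d G a A ⟨f, hf, hfd⟩ ⟨g, hg, hgG⟩ _
  refine ⟨fun m s j => (LL g a A (m, List.ofFn s)).getD (EE a (m, List.ofFn s) * m + j) false,
    fun m => ee (a * lam m), ?_, ?_, ?_⟩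
  · have h1 : PT fun x : Bits => 2 ^ (A * lam (sz x)) := pt_big A (PT.sz PT.id')
    have h2 : PT fun x : Bits => (⟨f (raw (2 ^ (A * lam (sz x)))).val⟩ : Bits) :=
      (pt_of_polyTime hf).comp (PT.raw h1)
    have h3 : PT fun x : Bits => raw (sz (⟨f (raw (2 ^ (A * lam (sz x)))).val⟩ : Bits) +
        a * lam (sz x)) :=
      PT.raw (PT.add (PT.sz h2) (PT.mul (PT.const a) (pt_lam (PT.sz PT.id'))))
    refine ⟨_, PT.polyTime h3, fun m => ?_⟩
    have e1 : sz (⟨List.replicate m true⟩ : Bits) = m := by simp [sz]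
    rw [e1, raw_val, raw_val, enc_nat, enc_nat, hfd]
    have e2 : sz (⟨List.replicate (d (2 ^ (A * lam m))) true⟩ : Bits) = d (2 ^ (A * lam m)) := by
      simp [sz]
    rw [e2]
  · have h : PT fun x : Bits => Bits.mk (gen' g a A (sz x.fst, x.snd.val)) :=
      PT.bmk ((pt_gen' hg a A).comp (g := fun x : Bits => (sz x.fst, x.snd.val))
        (PT.mk (PT.sz PT.bfst) (PT.bval PT.bsnd)))
    refine ⟨_, PT.polyTime h, fun m s => ?_⟩
    have e1 : sz (Bits.fst ⟨pair (List.replicate m true) (List.ofFn s)⟩) = m := by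
      simp [Bits.fst, sz]
    have e2 : (Bits.snd ⟨pair (List.replicate m true) (List.ofFn s)⟩).val = List.ofFn s := by
      simp [Bits.snd]
    rw [e1, e2]
    show gen' g a A (m, List.ofFn s) = _
    unfold gen'
    apply List.ext_getElem
    · simp
    · intro i h1 h2
      simp
  · intro m s u j h
    have e1 : List.ofFn (Fin.append s u) = List.ofFn s ++ List.ofFn u := List.ofFn_fin_append s u
    have e2 : (List.ofFn s ++ List.ofFn u).length - a * lam m = (List.ofFn s).length := by simp
    have e3 : LL g a A (m, List.ofFn (Fin.append s u)) = List.ofFn (G (2 ^ (A * lam m)) s) := by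
      unfold LL
      rw [e1, e2, List.take_left', hgG]
      rfl
    have e4 : EE a (m, List.ofFn (Fin.append s u)) = (ee (a * lam m) u : ℕ) := by
      unfold EE
      rw [e1, e2, List.drop_left', ee_val]
      rfl
    show (LL g a A (m, List.ofFn (Fin.append s u))).getD
      (EE a (m, List.ofFn (Fin.append s u)) * m + j) false = _
    rw [e3, e4, List.getD_eq_getElem _ _ (by rw [List.length_ofFn]; exact h), List.getElem_ofFn]

end Pool.Agent.W2helper15.MG
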